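import Pool.Agent.Helper227.CD.Pos

set_option autoImplicit false

open Pool.Agent.Helper227

namespace Pool.Agent.Results.MP_b653e9_lc.DeficiencyForces

/-- Universal prefix-free machines exist. There is a computable function `h` tending to infinity,
and there is a nondecreasing unbounded function `h`, such that (for every choice of the universal
machine `U`) every `X` with `K(X ↾ n) > n - h(n)` for all `n` is random or computes the halting
problem; in particular it computes a 1-random sequence. -/
theorem result :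
    (∃ U : List Bool →. List Bool, IsUniversal U) ∧
    (∃ h : ℕ → ℕ, Computable h ∧ Filter.Tendsto h Filter.atTop Filter.atTop ∧
      ∀ U : List Bool →. List Bool, IsUniversal U → ∀ X : ℕ → Bool,
        (∀ n : ℕ, (n : ℤ) - h n < KU U ((List.range n).map X)) →
          (MLRandom X ∨ TLe (jump zero) X) ∧ ∃ Y : ℕ → Bool, TLe Y X ∧ MLRandom Y) ∧
    (∃ h : ℕ → ℕ, Monotone h ∧ Filter.Tendsto h Filter.atTop Filter.atTop ∧
      ∀ U : List Bool →. List Bool, IsUniversal U → ∀ X : ℕ → Bool,
        (∀ n : ℕ, (n : ℤ) - h n < KU U ((List.range n).map X)) →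
          (MLRandom X ∨ TLe (jump zero) X) ∧ ∃ Y : ℕ → Bool, TLe Y X ∧ MLRandom Y) := by
  obtain ⟨h, hc, ht, hh⟩ := pos_main
  have key : ∀ U : List Bool →. List Bool, IsUniversal U → ∀ X : ℕ → Bool,
      (∀ n : ℕ, (n : ℤ) - h n < KU U ((List.range n).map X)) →
        (MLRandom X ∨ TLe (jump zero) X) ∧ ∃ Y : ℕ → Bool, TLe Y X ∧ MLRandom Y := by
    intro U hU X hX
    have h1 : MLRandom X ∨ TLe (jump zero) X := by
      refine hh U hU X fun n => ?_
      have := hX n
      change (n : ℤ) - h n < KU U (pre X n) at this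
      omega
    refine ⟨h1, ?_⟩
    rcases h1 with h1 | h1
    · exact ⟨X, TLe.refl X, h1⟩
    · obtain ⟨Y, h2, h3⟩ := exists_random_below
      exact ⟨Y, h3.trans h1, h2⟩
  refine ⟨exists_isUniversal, ⟨h, hc, ht, key⟩, ⟨mino h, monotone_mino h, tendsto_mino ht,
    fun U hU X hX => key U hU X fun n => ?_⟩⟩
  have h1 := hX n
  have h2 : mino h n ≤ h n := mino_le le_rfl
  have h3 : (mino h n : ℤ) ≤ h n := by exact_mod_cast h2
  linarith

end Pool.Agent.Results.MP_b653e9_lc.DeficiencyForces
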